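import Pool.Agent.Y677.RSZ.FinInst

set_option autoImplicit false

/-!
# Narrow progressions in ARBITRARY subsets of the Ankeny–Chowla–Hasse and Lang families

Let `q` be a prime. Whatever the set `S` of natural numbers `n` for which `(2 q n)² + 1` is a prime, all elements of `S`
in `(X, X + Y]`, with at most `ε Y / log X` exceptions (an arbitrarily small proportion of the expected number), are
terms of `l`-term arithmetic progressions contained in `S ∩ (X, X + Y]` whose difference is at most a fixed power of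
`log X`; here `X ^ θ ≤ Y ≤ X` and `θ > 0` is arbitrarily small. The same holds, for `q ≠ 2`, for
`((2 n + 1) q)² + 4`, and for sets of `n` for which these values have no prime factor up to a small power of `n`.
-/

namespace Pool.Agent.Results.MP_4b1228_nt.NarrowProgressions

open Finset Filter

/-- `x` is a term of an `l`-term arithmetic progression contained in `S ∩ (u, v]`, with difference at most `D` -/
def OnProgression (S : Set ℕ) (l : ℕ) (D : ℝ) (u v x : ℕ) : Prop :=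
  ∃ m d : ℕ, 1 ≤ d ∧ (d : ℝ) ≤ D ∧ (∀ i < l, m + i * d ∈ S ∧ u < m + i * d ∧ m + i * d ≤ v) ∧ ∃ i < l, x = m + i * d

/-- all elements of `S` in `(u, v]` with at most `t` exceptions are terms of such progressions -/
def NearlyAll (S : Set ℕ) (l : ℕ) (D : ℝ) (u v : ℕ) (t : ℝ) : Prop :=
  ({x : ℕ | u < x ∧ x ≤ v ∧ x ∈ S ∧ ¬ OnProgression S l D u v x}.ncard : ℝ) ≤ t

/-- all prime factors of `V n` are larger than `n ^ (1 / r)` -/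
def Rough (V : ℕ → ℕ) (r n : ℕ) : Prop :=
  ∀ p : ℕ, p.Prime → p ∣ V n → (n : ℝ) ^ (1 / (r : ℝ)) < p

/-- the statement on narrow progressions for the prime and rough values of `V` -/
def Narrow (V : ℕ → ℕ) (θ : ℝ) : Prop :=
  -- prime values
  (∀ l : ℕ, 2 ≤ l → ∀ ε : ℝ, 0 < ε → ∃ B : ℕ, ∀ᶠ X : ℕ in atTop, ∀ Y : ℕ, (X : ℝ) ^ θ ≤ Y → Y ≤ X →
    ∀ S : Set ℕ, (∀ n ∈ S, (V n).Prime) → NearlyAll S l (Real.log X ^ B) X (X + Y) (ε * (Y / Real.log X))) ∧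
  -- rough values
  ∃ r₀ : ℕ, ∀ r : ℕ, r₀ ≤ r →
    (∀ l : ℕ, 2 ≤ l → ∀ ε : ℝ, 0 < ε → ∃ B : ℕ, ∀ᶠ X : ℕ in atTop, ∀ Y : ℕ, (X : ℝ) ^ θ ≤ Y → Y ≤ X →
      ∀ S : Set ℕ, (∀ n ∈ S, Rough V r n) → NearlyAll S l (Real.log X ^ B) X (X + Y) (ε * (Y / Real.log X))) ∧
    ∃ κ : ℝ, 0 < κ ∧ ∀ᶠ X : ℕ in atTop, ∀ Y : ℕ, (X : ℝ) ^ θ ≤ Y → Y ≤ X → κ * (Y / Real.log X) ≤
      ({n : ℕ | X < n ∧ n ≤ X + Y ∧ Rough V r n ∧ (V n).primeFactorsList.length ≤ r}.ncard : ℝ)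

section aux
open Pool.Agent.TH464.PW (quad quad_eval quad_irr quad_deg quad_lead)
open Pool.Agent.W123.RU

lemma sys (a b c : ℤ) (ha : 0 < a) (hg : ∀ p : ℕ, p.Prime → ¬ ((p : ℤ) ∣ a ∧ (p : ℤ) ∣ b ∧ (p : ℤ) ∣ c))
    (hD : ¬ IsSquare (b ^ 2 - 4 * a * c)) (hadm : ∀ p : ℕ, p.Prime → ∃ m : ℕ, ¬ (p : ℤ) ∣ a * (m : ℤ) ^ 2 + b * m + c) :
    Poly.Sys (fun _ : Fin 1 => quad a b c) where
  irr := fun _ => quad_irr a b c ha.ne' hg hD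
  deg := fun _ => by rw [quad_deg a b c ha.ne']; norm_num
  lead := fun _ => by rw [quad_lead a b c ha.ne']; exact ha
  inj := fun _ _ _ => Subsingleton.elim _ _
  adm := fun p hp => by
    obtain ⟨m, hm⟩ := hadm p hp
    refine ⟨m, fun _ h => hm ?_⟩
    rwa [quad_eval] at h

lemma rough_iff (a b c : ℤ) (V : ℕ → ℕ) (hV : ∀ m : ℕ, a * (m : ℤ) ^ 2 + b * m + c = V m) (r m : ℕ) :
    Pool.Agent.TH977.PW.Rough (fun _ : Fin 1 => quad a b c) r m ↔ Rough V r m := by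
  unfold Pool.Agent.TH977.PW.Rough Rough
  simp only [quad_eval, hV, Int.natCast_dvd_natCast]
  exact ⟨fun h => h 0, fun h _ => h⟩

lemma few_iff (a b c : ℤ) (V : ℕ → ℕ) (hV : ∀ m : ℕ, a * (m : ℤ) ^ 2 + b * m + c = V m) (r m : ℕ) :
    Pool.Agent.TH977.PW.Few (fun _ : Fin 1 => quad a b c) r m ↔ (V m).primeFactorsList.length ≤ r := by
  unfold Pool.Agent.TH977.PW.Few
  simp only [quad_eval, hV, Int.natAbs_natCast]
  exact ⟨fun h => h 0, fun h _ => h⟩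

/-- prime values are rough -/
lemma prime_rough (V : ℕ → ℕ) (r : ℕ) (hr : 2 ≤ r) (x : ℕ) (hle : x ≤ V x) (h : (V x).Prime) : Rough V r x := by
  intro p hp hd
  have h1 : p = V x := (Nat.prime_dvd_prime_iff_eq hp h).1 hd
  have h2 : x ≤ p := by rw [h1]; exact hle
  rcases Nat.lt_or_ge x 2 with h3 | h3
  · rcases Nat.eq_zero_or_pos x with h0 | h0
    · subst h0
      rw [Nat.cast_zero, Real.zero_rpow (by
        have : (0 : ℝ) < r := by exact_mod_cast (by omega : 0 < r)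
        positivity)]
      exact_mod_cast hp.pos
    · have h4 : x = 1 := by omega
      subst h4
      rw [Nat.cast_one, Real.one_rpow]
      exact_mod_cast hp.one_lt
  · exact Pool.Agent.TH977.PW.rpow_lt_of_le r x p hr h3 h2

end aux

lemma gA (q : ℕ) (p : ℕ) (hp : p.Prime) : ¬ ((p : ℤ) ∣ 4 * (q : ℤ) ^ 2 ∧ (p : ℤ) ∣ 0 ∧ (p : ℤ) ∣ 1) := by
  rintro ⟨-, -, h⟩
  have h2 : p ∣ 1 := by exact_mod_cast h
  exact hp.one_lt.ne' (Nat.dvd_one.1 h2)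

lemma DA (q : ℕ) (hq : 0 < q) : ¬ IsSquare ((0 : ℤ) ^ 2 - 4 * (4 * (q : ℤ) ^ 2) * 1) := by
  rintro ⟨x, hx⟩
  have h1 : (0 : ℤ) < (q : ℤ) ^ 2 := by positivity
  nlinarith [mul_self_nonneg x]

lemma admA (q : ℕ) (p : ℕ) (hp : p.Prime) : ∃ m : ℕ, ¬ (p : ℤ) ∣ 4 * (q : ℤ) ^ 2 * (m : ℤ) ^ 2 + 0 * m + 1 := by
  refine ⟨0, fun h => ?_⟩
  have e : 4 * (q : ℤ) ^ 2 * ((0 : ℕ) : ℤ) ^ 2 + 0 * ((0 : ℕ) : ℤ) + 1 = 1 := by push_cast; ring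
  rw [e] at h
  have h2 : p ∣ 1 := by exact_mod_cast h
  exact hp.one_lt.ne' (Nat.dvd_one.1 h2)

lemma not_both (q p : ℕ) (hq : q.Prime) (hq2 : q ≠ 2) (hp : p.Prime) (h1 : p ∣ 8 * q ^ 2) (h2 : p ∣ q ^ 2 + 4) : False := by
  have hodd : q % 2 = 1 := (hq.eq_two_or_odd).resolve_left hq2
  have hp2 : p ≠ 2 := by
    rintro rfl
    have h3 : (q ^ 2 + 4) % 2 = 1 := by rw [Nat.add_mod, Nat.pow_mod, hodd]
    omega
  rcases (Nat.Prime.dvd_mul hp).1 h1 with h3 | h3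
  · have h4 : p ∣ 2 ^ 3 := h3
    have h5 : p ∣ 2 := hp.dvd_of_dvd_pow h4
    exact hp2 ((Nat.prime_dvd_prime_iff_eq hp Nat.prime_two).1 h5)
  · have h4 : p ∣ 4 := (Nat.dvd_add_right h3).1 h2
    have h5 : p ∣ 2 := hp.dvd_of_dvd_pow (by exact h4 : p ∣ 2 ^ 2)
    exact hp2 ((Nat.prime_dvd_prime_iff_eq hp Nat.prime_two).1 h5)

lemma gB (q : ℕ) (hq : q.Prime) (hq2 : q ≠ 2) (p : ℕ) (hp : p.Prime) :
    ¬ ((p : ℤ) ∣ 4 * (q : ℤ) ^ 2 ∧ (p : ℤ) ∣ 4 * (q : ℤ) ^ 2 ∧ (p : ℤ) ∣ (q : ℤ) ^ 2 + 4) := by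
  rintro ⟨h1, -, h3⟩
  have h4 : p ∣ 4 * q ^ 2 := by exact_mod_cast h1
  have h5 : p ∣ q ^ 2 + 4 := by exact_mod_cast h3
  exact not_both q p hq hq2 hp (by
    have e : 8 * q ^ 2 = 2 * (4 * q ^ 2) := by ring
    rw [e]
    exact h4.mul_left 2) h5

lemma DB (q : ℕ) (hq : 0 < q) :
    ¬ IsSquare ((4 * (q : ℤ) ^ 2) ^ 2 - 4 * (4 * (q : ℤ) ^ 2) * ((q : ℤ) ^ 2 + 4)) := by
  rintro ⟨x, hx⟩
  have h1 : (0 : ℤ) < (q : ℤ) ^ 2 := by positivity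
  nlinarith [mul_self_nonneg x]

lemma admB (q : ℕ) (hq : q.Prime) (hq2 : q ≠ 2) (p : ℕ) (hp : p.Prime) :
    ∃ m : ℕ, ¬ (p : ℤ) ∣ 4 * (q : ℤ) ^ 2 * (m : ℤ) ^ 2 + 4 * (q : ℤ) ^ 2 * m + ((q : ℤ) ^ 2 + 4) := by
  by_contra hcon
  push Not at hcon
  have h0 := hcon 0
  have h1 := hcon 1
  have e0 : 4 * (q : ℤ) ^ 2 * ((0 : ℕ) : ℤ) ^ 2 + 4 * (q : ℤ) ^ 2 * ((0 : ℕ) : ℤ) + ((q : ℤ) ^ 2 + 4) =
      ((q ^ 2 + 4 : ℕ) : ℤ) := by push_cast; ring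
  have e1 : 4 * (q : ℤ) ^ 2 * ((1 : ℕ) : ℤ) ^ 2 + 4 * (q : ℤ) ^ 2 * ((1 : ℕ) : ℤ) + ((q : ℤ) ^ 2 + 4) =
      ((8 * q ^ 2 + (q ^ 2 + 4) : ℕ) : ℤ) := by push_cast; ring
  rw [e0, Int.natCast_dvd_natCast] at h0
  rw [e1, Int.natCast_dvd_natCast] at h1
  exact not_both q p hq hq2 hp ((Nat.dvd_add_left h0).1 h1) h0

open Classical in
lemma out_eq (S : Set ℕ) (l : ℕ) (D : ℝ) (u v : ℕ) :
    ({x : ℕ | u < x ∧ x ≤ v ∧ x ∈ S ∧ ¬ OnProgression S l D u v x}.ncard : ℝ) =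
      (Pool.Agent.TH977.PW.N (Pool.Agent.Y677.RSZ.Outside S l D u v) u v : ℝ) := by
  unfold Pool.Agent.TH977.PW.N
  rw [← Set.ncard_coe_finset]
  congr 2
  ext n
  rw [mem_coe, mem_filter, mem_Ioc]
  constructor
  · rintro ⟨h1, h2, h3, h4⟩
    exact ⟨⟨h1, h2⟩, h3, h4⟩
  · rintro ⟨⟨h1, h2⟩, h3, h4⟩
    exact ⟨h1, h2, h3, h4⟩

lemma main (a b c : ℤ) (ha : 0 < a) (hg : ∀ p : ℕ, p.Prime → ¬ ((p : ℤ) ∣ a ∧ (p : ℤ) ∣ b ∧ (p : ℤ) ∣ c))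
    (hD : ¬ IsSquare (b ^ 2 - 4 * a * c)) (hadm : ∀ p : ℕ, p.Prime → ∃ m : ℕ, ¬ (p : ℤ) ∣ a * (m : ℤ) ^ 2 + b * m + c)
    (V : ℕ → ℕ) (hV : ∀ m : ℕ, a * (m : ℤ) ^ 2 + b * m + c = V m) (hle : ∀ m, m ≤ V m)
    (θ : ℝ) (hθ : 0 < θ) (hθ1 : θ ≤ 1) : Narrow V θ := by
  classical
  obtain ⟨r0, hr0, h⟩ := Pool.Agent.Y677.RSZ.narrow_final _ (sys a b c ha hg hD hadm)
    (fun r => {x | Rough V r x}) (fun r => {x | Rough V r x ∧ (V x).primeFactorsList.length ≤ r}) 1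
    (by rw [Fintype.card_fin]) (fun r m hr hm => (rough_iff a b c V hV r m).2 hm)
    (fun r m hr h1 h2 => ⟨(rough_iff a b c V hV r m).1 h1, (few_iff a b c V hV r m).1 h2⟩) θ hθ hθ1
  have key : ∀ r : ℕ, r0 ≤ r → ∀ l : ℕ, 2 ≤ l → ∀ ε : ℝ, 0 < ε → ∃ B : ℕ, ∀ᶠ X : ℕ in atTop, ∀ Y : ℕ,
      (X : ℝ) ^ θ ≤ Y → Y ≤ X → ∀ S : Set ℕ, (∀ x ∈ S, Rough V r x) →
        NearlyAll S l (Real.log X ^ B) X (X + Y) (ε * (Y / Real.log X)) := by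
    intro r hr l hl ε hε
    obtain ⟨B, hB⟩ := (h r hr).2 l hl ε hε
    refine ⟨B, ?_⟩
    filter_upwards [hB] with X hX Y hXY hYX S hS
    have h1 := hX Y hXY hYX S (fun x hx => hS x hx)
    unfold NearlyAll
    rw [out_eq]
    rw [pow_one] at h1
    calc _ ≤ ε * Y / Real.log X := h1
      _ = _ := by ring
  refine ⟨?_, r0, fun r hr => ⟨key r hr, ?_⟩⟩
  · intro l hl ε hε
    obtain ⟨B, hB⟩ := key r0 le_rfl l hl ε hε
    refine ⟨B, ?_⟩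
    filter_upwards [hB] with X hX Y hXY hYX S hS
    exact hX Y hXY hYX S (fun x hx => prime_rough V r0 hr0 x (hle x) (hS x hx))
  · obtain ⟨κ, hκ, h2⟩ := (h r hr).1
    refine ⟨κ, hκ, ?_⟩
    filter_upwards [h2] with X hX Y hXY hYX
    have h3 := hX Y hXY hYX
    rw [pow_one] at h3
    unfold Pool.Agent.TH977.PW.N at h3
    have h4 : {x : ℕ | X < x ∧ x ≤ X + Y ∧ Rough V r x ∧ (V x).primeFactorsList.length ≤ r} =
        (((Ioc X (X + Y)).filter (fun m => m ∈ {x | Rough V r x ∧ (V x).primeFactorsList.length ≤ r}) :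
          Finset ℕ) : Set ℕ) := by
      ext n
      rw [mem_coe, mem_filter, mem_Ioc]
      constructor
      · rintro ⟨g1, g2, g3⟩
        exact ⟨⟨g1, g2⟩, g3⟩
      · rintro ⟨⟨g1, g2⟩, g3⟩
        exact ⟨g1, g2, g3⟩
    rw [h4, Set.ncard_coe_finset]
    calc κ * (Y / Real.log X) = κ * Y / Real.log X := by ring
      _ ≤ _ := h3
      _ = _ := by
        norm_cast
        exact congrArg card (Finset.ext fun n => by simp only [mem_filter])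

/-- **Narrow progressions in arbitrary subsets of the Ankeny–Chowla–Hasse and Lang families.** -/
theorem result (q : ℕ) (hq : q.Prime) (θ : ℝ) (hθ : 0 < θ) (hθ1 : θ ≤ 1) :
    Narrow (fun n => (2 * q * n) ^ 2 + 1) θ ∧ (q ≠ 2 → Narrow (fun n => ((2 * n + 1) * q) ^ 2 + 4) θ) := by
  have hq1 := hq.one_lt
  have hqp : (0 : ℤ) < 4 * (q : ℤ) ^ 2 := by
    have : (0 : ℤ) < q := by exact_mod_cast hq.pos
    positivity
  refine ⟨main (4 * (q : ℤ) ^ 2) 0 1 hqp (gA q) (DA q hq.pos) (admA q) _ (fun m => by push_cast; ring) (fun m => ?_)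
    θ hθ hθ1, fun hq2 => main (4 * (q : ℤ) ^ 2) (4 * (q : ℤ) ^ 2) ((q : ℤ) ^ 2 + 4) hqp (gB q hq hq2) (DB q hq.pos)
    (admB q hq hq2) _ (fun m => by push_cast; ring) (fun m => ?_) θ hθ hθ1⟩
  · have h1 : m ≤ 2 * q * m := Nat.le_mul_of_pos_left m (by omega)
    have h2 : 2 * q * m ≤ (2 * q * m) ^ 2 := Nat.le_self_pow two_ne_zero _
    exact (h1.trans h2).trans (Nat.le_succ _)
  · have h1 : m ≤ (2 * m + 1) * q := by nlinarith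
    have h2 : (2 * m + 1) * q ≤ ((2 * m + 1) * q) ^ 2 := Nat.le_self_pow two_ne_zero _
    exact (h1.trans h2).trans (Nat.le_add_right _ _)

end Pool.Agent.Results.MP_4b1228_nt.NarrowProgressions
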