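import Pool.Agent.TH977.PW.Inst

set_option autoImplicit false

/-!
# Regular points of ARBITRARY subsets of the Ankeny–Chowla–Hasse and Lang families

Let `q` be a prime, and let `S` be an ARBITRARY set of natural numbers `n` for which `(2 q n)² + 1` is a prime (for
example the set of all of them). In every short interval `(X, X + Y]`, `X ^ θ ≤ Y ≤ X / 2`, all but `ε Y / log X` of
the elements of `S` are regular points of `S`: the numbers of elements of `S` in ALL intervals around the point of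
length between `log X / c` and `Y` have the conjectured order of magnitude, and `S` has constant density up to `δ` on
both sides of the point at all but `B (ε, δ)` dyadic scales. The same holds, for `q ≠ 2`, for `((2 n + 1) q)² + 4`, and
for sets of `n` for which these values have no prime factor up to a small power of `n`.
-/

namespace Pool.Agent.Results.MP_4b1228_nt.RegularPoints

open Finset Filter

open Classical in
/-- the number of the elements of `S` in `(u, v]` -/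
noncomputable def N (S : Set ℕ) (u v : ℕ) : ℕ := ((Ioc u v).filter (fun m => m ∈ S)).card

/-- All intervals `(n - s, n + t]` with `s, t ≤ Y` of length at least `log X / c` contain the right order of
elements of `S`. -/
def RightOrder (S : Set ℕ) (c : ℝ) (X Y n : ℕ) : Prop :=
  ∀ s t : ℕ, s ≤ Y → t ≤ Y → Real.log X ≤ c * (s + t) →
    c * (s + t) / Real.log X ≤ N S (n - s) (n + t) ∧ (N S (n - s) (n + t) : ℝ) ≤ (s + t) / (c * Real.log X)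

/-- Up to `δ`, `S` has a constant density on both sides of `n` up to the distance `2 ^ j`. -/
def ConstantDensity (S : Set ℕ) (c δ : ℝ) (X n j : ℕ) : Prop :=
  ∃ lam : ℝ, c ≤ lam ∧ lam ≤ 1 / c ∧ ∀ s t : ℕ, s ≤ 2 ^ j → t ≤ 2 ^ j →
    |(N S (n - s) (n + t) : ℝ) - lam * (s + t) / Real.log X| ≤ δ * 2 ^ j / Real.log X

open Classical in
/-- the number of the scales `log X ≤ 2 ^ j ≤ Y` without this property -/
noncomputable def badScales (S : Set ℕ) (c δ : ℝ) (X Y n : ℕ) : ℕ :=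
  ((range (Nat.log 2 Y + 1)).filter (fun j => Real.log X ≤ (2 : ℝ) ^ j ∧ ¬ ConstantDensity S c δ X n j)).card

/-- The elements of `S` that are not regular points of `S`. -/
def Irregular (S : Set ℕ) (c δ : ℝ) (B X Y : ℕ) : Set ℕ :=
  {n | n ∈ S ∧ ¬ (RightOrder S c X Y n ∧ badScales S c δ X Y n ≤ B)}

/-- all prime factors of `V n` are larger than `n ^ (1 / r)` -/
def Rough (V : ℕ → ℕ) (r n : ℕ) : Prop :=
  ∀ p : ℕ, p.Prime → p ∣ V n → (n : ℝ) ^ (1 / (r : ℝ)) < p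

/-- the statement on regular points for the prime and rough values of `V` -/
def Regular (V : ℕ → ℕ) (θ : ℝ) : Prop :=
  -- prime values
  (∀ ε : ℝ, 0 < ε → ∃ c : ℝ, 0 < c ∧ ∀ δ : ℝ, 0 < δ → ∃ B : ℕ, ∀ᶠ X : ℕ in atTop, ∀ Y : ℕ,
    (X : ℝ) ^ θ ≤ Y → 2 * Y ≤ X → ∀ S : Set ℕ, (∀ n ∈ S, (V n).Prime) →
      (N (Irregular S c δ B X Y) X (X + Y) : ℝ) ≤ ε * (Y / Real.log X)) ∧
  -- rough values
  ∃ r₀ : ℕ, ∀ r : ℕ, r₀ ≤ r →
    (∀ ε : ℝ, 0 < ε → ∃ c : ℝ, 0 < c ∧ ∀ δ : ℝ, 0 < δ → ∃ B : ℕ, ∀ᶠ X : ℕ in atTop, ∀ Y : ℕ,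
      (X : ℝ) ^ θ ≤ Y → 2 * Y ≤ X → ∀ S : Set ℕ, (∀ n ∈ S, Rough V r n) →
        (N (Irregular S c δ B X Y) X (X + Y) : ℝ) ≤ ε * (Y / Real.log X)) ∧
    ∃ κ : ℝ, 0 < κ ∧ ∀ᶠ X : ℕ in atTop, ∀ Y : ℕ, (X : ℝ) ^ θ ≤ Y → Y ≤ X → κ * (Y / Real.log X) ≤
      (N {n | Rough V r n ∧ (V n).primeFactorsList.length ≤ r} X (X + Y) : ℝ)

section aux
open Pool.Agent.TH464.PW (quad quad_eval quad_irr quad_deg quad_lead)
open Pool.Agent.W123.RU

lemma sys (a b c : ℤ) (ha : 0 < a) (hg : ∀ p : ℕ, p.Prime → ¬ ((p : ℤ) ∣ a ∧ (p : ℤ) ∣ b ∧ (p : ℤ) ∣ c))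
    (hD : ¬ IsSquare (b ^ 2 - 4 * a * c)) (hadm : ∀ p : ℕ, p.Prime → ∃ m : ℕ, ¬ (p : ℤ) ∣ a * (m : ℤ) ^ 2 + b * m + c) :
    Poly.Sys (fun _ : Fin 1 => quad a b c) where
  irr := fun _ => quad_irr a b c ha.ne' hg hD
  deg := fun _ => by rw [quad_deg a b c ha.ne']; norm_num
  lead := fun _ => by rw [quad_lead a b c ha.ne']; exact ha
  inj := fun _ _ _ => Subsingleton.elim _ _
  adm := fun p hp => by
    obtain ⟨m, hm⟩ := hadm p hp
    refine ⟨m, fun _ h => hm ?_⟩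
    rwa [quad_eval] at h

lemma rough_iff (a b c : ℤ) (V : ℕ → ℕ) (hV : ∀ m : ℕ, a * (m : ℤ) ^ 2 + b * m + c = V m) (r m : ℕ) :
    Pool.Agent.TH977.PW.Rough (fun _ : Fin 1 => quad a b c) r m ↔ Rough V r m := by
  unfold Pool.Agent.TH977.PW.Rough Rough
  simp only [quad_eval, hV, Int.natCast_dvd_natCast]
  exact ⟨fun h => h 0, fun h _ => h⟩

lemma few_iff (a b c : ℤ) (V : ℕ → ℕ) (hV : ∀ m : ℕ, a * (m : ℤ) ^ 2 + b * m + c = V m) (r m : ℕ) :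
    Pool.Agent.TH977.PW.Few (fun _ : Fin 1 => quad a b c) r m ↔ (V m).primeFactorsList.length ≤ r := by
  unfold Pool.Agent.TH977.PW.Few
  simp only [quad_eval, hV, Int.natAbs_natCast]
  exact ⟨fun h => h 0, fun h _ => h⟩

/-- prime values are rough -/
lemma prime_rough (V : ℕ → ℕ) (r : ℕ) (hr : 2 ≤ r) (x : ℕ) (hle : x ≤ V x) (h : (V x).Prime) : Rough V r x := by
  intro p hp hd
  have h1 : p = V x := (Nat.prime_dvd_prime_iff_eq hp h).1 hd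
  have h2 : x ≤ p := by rw [h1]; exact hle
  rcases Nat.lt_or_ge x 2 with h3 | h3
  · rcases Nat.eq_zero_or_pos x with h0 | h0
    · subst h0
      rw [Nat.cast_zero, Real.zero_rpow (by
        have : (0 : ℝ) < r := by exact_mod_cast (by omega : 0 < r)
        positivity)]
      exact_mod_cast hp.pos
    · have h4 : x = 1 := by omega
      subst h4
      rw [Nat.cast_one, Real.one_rpow]
      exact_mod_cast hp.one_lt
  · exact Pool.Agent.TH977.PW.rpow_lt_of_le r x p hr h3 h2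

end aux

lemma gA (q : ℕ) (p : ℕ) (hp : p.Prime) : ¬ ((p : ℤ) ∣ 4 * (q : ℤ) ^ 2 ∧ (p : ℤ) ∣ 0 ∧ (p : ℤ) ∣ 1) := by
  rintro ⟨-, -, h⟩
  have h2 : p ∣ 1 := by exact_mod_cast h
  exact hp.one_lt.ne' (Nat.dvd_one.1 h2)

lemma DA (q : ℕ) (hq : 0 < q) : ¬ IsSquare ((0 : ℤ) ^ 2 - 4 * (4 * (q : ℤ) ^ 2) * 1) := by
  rintro ⟨x, hx⟩
  have h1 : (0 : ℤ) < (q : ℤ) ^ 2 := by positivity
  nlinarith [mul_self_nonneg x]

lemma admA (q : ℕ) (p : ℕ) (hp : p.Prime) : ∃ m : ℕ, ¬ (p : ℤ) ∣ 4 * (q : ℤ) ^ 2 * (m : ℤ) ^ 2 + 0 * m + 1 := by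
  refine ⟨0, fun h => ?_⟩
  have e : 4 * (q : ℤ) ^ 2 * ((0 : ℕ) : ℤ) ^ 2 + 0 * ((0 : ℕ) : ℤ) + 1 = 1 := by push_cast; ring
  rw [e] at h
  have h2 : p ∣ 1 := by exact_mod_cast h
  exact hp.one_lt.ne' (Nat.dvd_one.1 h2)

lemma not_both (q p : ℕ) (hq : q.Prime) (hq2 : q ≠ 2) (hp : p.Prime) (h1 : p ∣ 8 * q ^ 2) (h2 : p ∣ q ^ 2 + 4) : False := by
  have hodd : q % 2 = 1 := (hq.eq_two_or_odd).resolve_left hq2
  have hp2 : p ≠ 2 := by
    rintro rfl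
    have h3 : (q ^ 2 + 4) % 2 = 1 := by rw [Nat.add_mod, Nat.pow_mod, hodd]
    omega
  rcases (Nat.Prime.dvd_mul hp).1 h1 with h3 | h3
  · have h4 : p ∣ 2 ^ 3 := h3
    have h5 : p ∣ 2 := hp.dvd_of_dvd_pow h4
    exact hp2 ((Nat.prime_dvd_prime_iff_eq hp Nat.prime_two).1 h5)
  · have h4 : p ∣ 4 := (Nat.dvd_add_right h3).1 h2
    have h5 : p ∣ 2 := hp.dvd_of_dvd_pow (by exact h4 : p ∣ 2 ^ 2)
    exact hp2 ((Nat.prime_dvd_prime_iff_eq hp Nat.prime_two).1 h5)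

lemma gB (q : ℕ) (hq : q.Prime) (hq2 : q ≠ 2) (p : ℕ) (hp : p.Prime) :
    ¬ ((p : ℤ) ∣ 4 * (q : ℤ) ^ 2 ∧ (p : ℤ) ∣ 4 * (q : ℤ) ^ 2 ∧ (p : ℤ) ∣ (q : ℤ) ^ 2 + 4) := by
  rintro ⟨h1, -, h3⟩
  have h4 : p ∣ 4 * q ^ 2 := by exact_mod_cast h1
  have h5 : p ∣ q ^ 2 + 4 := by exact_mod_cast h3
  exact not_both q p hq hq2 hp (by
    have e : 8 * q ^ 2 = 2 * (4 * q ^ 2) := by ring
    rw [e]
    exact h4.mul_left 2) h5

lemma DB (q : ℕ) (hq : 0 < q) :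
    ¬ IsSquare ((4 * (q : ℤ) ^ 2) ^ 2 - 4 * (4 * (q : ℤ) ^ 2) * ((q : ℤ) ^ 2 + 4)) := by
  rintro ⟨x, hx⟩
  have h1 : (0 : ℤ) < (q : ℤ) ^ 2 := by positivity
  nlinarith [mul_self_nonneg x]

lemma admB (q : ℕ) (hq : q.Prime) (hq2 : q ≠ 2) (p : ℕ) (hp : p.Prime) :
    ∃ m : ℕ, ¬ (p : ℤ) ∣ 4 * (q : ℤ) ^ 2 * (m : ℤ) ^ 2 + 4 * (q : ℤ) ^ 2 * m + ((q : ℤ) ^ 2 + 4) := by
  by_contra hcon
  push Not at hcon
  have h0 := hcon 0
  have h1 := hcon 1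
  have e0 : 4 * (q : ℤ) ^ 2 * ((0 : ℕ) : ℤ) ^ 2 + 4 * (q : ℤ) ^ 2 * ((0 : ℕ) : ℤ) + ((q : ℤ) ^ 2 + 4) =
      ((q ^ 2 + 4 : ℕ) : ℤ) := by push_cast; ring
  have e1 : 4 * (q : ℤ) ^ 2 * ((1 : ℕ) : ℤ) ^ 2 + 4 * (q : ℤ) ^ 2 * ((1 : ℕ) : ℤ) + ((q : ℤ) ^ 2 + 4) =
      ((8 * q ^ 2 + (q ^ 2 + 4) : ℕ) : ℤ) := by push_cast; ring
  rw [e0, Int.natCast_dvd_natCast] at h0
  rw [e1, Int.natCast_dvd_natCast] at h1
  exact not_both q p hq hq2 hp ((Nat.dvd_add_left h0).1 h1) h0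

lemma N_eq : N = Pool.Agent.TH977.PW.N := by
  funext A u v
  unfold N Pool.Agent.TH977.PW.N
  rfl

lemma RightOrder_iff (A : Set ℕ) (c : ℝ) (X Y m : ℕ) :
    RightOrder A c X Y m ↔ Pool.Agent.TH977.PW.RightOrder A 1 c X Y m := by
  unfold RightOrder Pool.Agent.TH977.PW.RightOrder
  simp only [N_eq, pow_one]

lemma ConstantDensity_iff (A : Set ℕ) (c δ : ℝ) (X m j : ℕ) :
    ConstantDensity A c δ X m j ↔ Pool.Agent.TH977.PW.ConstantDensity A 1 c δ X m j := by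
  unfold ConstantDensity Pool.Agent.TH977.PW.ConstantDensity
  simp only [N_eq, pow_one]

open Classical in
lemma badScales_eq (A : Set ℕ) (c δ : ℝ) (X Y m : ℕ) :
    badScales A c δ X Y m = Pool.Agent.TH977.PW.badScales A 1 c δ X Y m := by
  unfold badScales Pool.Agent.TH977.PW.badScales
  refine congrArg card (Finset.ext fun j => ?_)
  simp only [mem_filter, ConstantDensity_iff, pow_one]

lemma Irregular_eq (A : Set ℕ) (c δ : ℝ) (B X Y : ℕ) :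
    Irregular A c δ B X Y = Pool.Agent.TH977.PW.Irregular A 1 c δ B X Y := by
  unfold Irregular Pool.Agent.TH977.PW.Irregular
  simp only [RightOrder_iff, badScales_eq]

lemma main (a b c : ℤ) (ha : 0 < a) (hg : ∀ p : ℕ, p.Prime → ¬ ((p : ℤ) ∣ a ∧ (p : ℤ) ∣ b ∧ (p : ℤ) ∣ c))
    (hD : ¬ IsSquare (b ^ 2 - 4 * a * c)) (hadm : ∀ p : ℕ, p.Prime → ∃ m : ℕ, ¬ (p : ℤ) ∣ a * (m : ℤ) ^ 2 + b * m + c)
    (V : ℕ → ℕ) (hV : ∀ m : ℕ, a * (m : ℤ) ^ 2 + b * m + c = V m) (hle : ∀ m, m ≤ V m)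
    (θ : ℝ) (hθ : 0 < θ) (hθ1 : θ ≤ 1) : Regular V θ := by
  classical
  obtain ⟨r0, hr0, h1⟩ := Pool.Agent.TH977.PW.final _ (sys a b c ha hg hD hadm)
    (fun r => {x | Rough V r x}) (fun r => {x | Rough V r x ∧ (V x).primeFactorsList.length ≤ r}) 1
    (by rw [Fintype.card_fin]) (fun r m hr hm => (rough_iff a b c V hV r m).2 hm)
    (fun r m hr h1 h2 => ⟨(rough_iff a b c V hV r m).1 h1, (few_iff a b c V hV r m).1 h2⟩) θ hθ hθ1
  have key : ∀ r : ℕ, r0 ≤ r → ∀ ε : ℝ, 0 < ε → ∃ c : ℝ, 0 < c ∧ ∀ δ : ℝ, 0 < δ → ∃ B : ℕ,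
      ∀ᶠ X : ℕ in atTop, ∀ Y : ℕ,
      (X : ℝ) ^ θ ≤ Y → 2 * Y ≤ X → ∀ S : Set ℕ, (∀ x ∈ S, Rough V r x) →
        (N (Irregular S c δ B X Y) X (X + Y) : ℝ) ≤ ε * (Y / Real.log X) := by
    intro r hr ε hε
    obtain ⟨c, hc, h2⟩ := (h1 r hr).2 ε hε
    refine ⟨c, hc, fun δ hδ => ?_⟩
    obtain ⟨B, h3⟩ := h2 δ hδ
    refine ⟨B, ?_⟩
    filter_upwards [h3] with X hX Y hXY hYX S hS
    have h4 := hX Y hXY hYX S (fun x hx => hS x hx)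
    rw [pow_one] at h4
    rw [N_eq, Irregular_eq]
    calc _ ≤ ε * Y / Real.log X := h4
      _ = _ := by ring
  refine ⟨?_, r0, fun r hr => ⟨key r hr, ?_⟩⟩
  · intro ε hε
    obtain ⟨c, hc, h2⟩ := key r0 le_rfl ε hε
    refine ⟨c, hc, fun δ hδ => ?_⟩
    obtain ⟨B, h3⟩ := h2 δ hδ
    refine ⟨B, ?_⟩
    filter_upwards [h3] with X hX Y hXY hYX S hS
    exact hX Y hXY hYX S (fun x hx => prime_rough V r0 hr0 x (hle x) (hS x hx))
  · obtain ⟨κ, hκ, h2⟩ := (h1 r hr).1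
    refine ⟨κ, hκ, ?_⟩
    filter_upwards [h2] with X hX Y hXY hYX
    have h3 := hX Y hXY hYX
    rw [pow_one] at h3
    rw [N_eq]
    calc κ * (Y / Real.log X) = κ * Y / Real.log X := by ring
      _ ≤ _ := h3

/-- **Regular points of arbitrary subsets of the Ankeny–Chowla–Hasse and Lang families.** -/
theorem result (q : ℕ) (hq : q.Prime) (θ : ℝ) (hθ : 0 < θ) (hθ1 : θ ≤ 1) :
    Regular (fun n => (2 * q * n) ^ 2 + 1) θ ∧ (q ≠ 2 → Regular (fun n => ((2 * n + 1) * q) ^ 2 + 4) θ) := by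
  have hq1 := hq.one_lt
  have hqp : (0 : ℤ) < 4 * (q : ℤ) ^ 2 := by
    have : (0 : ℤ) < q := by exact_mod_cast hq.pos
    positivity
  refine ⟨main (4 * (q : ℤ) ^ 2) 0 1 hqp (gA q) (DA q hq.pos) (admA q) _ (fun m => by push_cast; ring) (fun m => ?_)
    θ hθ hθ1, fun hq2 => main (4 * (q : ℤ) ^ 2) (4 * (q : ℤ) ^ 2) ((q : ℤ) ^ 2 + 4) hqp (gB q hq hq2) (DB q hq.pos)
    (admB q hq hq2) _ (fun m => by push_cast; ring) (fun m => ?_) θ hθ hθ1⟩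
  · have h1 : m ≤ 2 * q * m := Nat.le_mul_of_pos_left m (by omega)
    have h2 : 2 * q * m ≤ (2 * q * m) ^ 2 := Nat.le_self_pow two_ne_zero _
    exact (h1.trans h2).trans (Nat.le_succ _)
  · have h1 : m ≤ (2 * m + 1) * q := by nlinarith
    have h2 : (2 * m + 1) * q ≤ ((2 * m + 1) * q) ^ 2 := Nat.le_self_pow two_ne_zero _
    exact (h1.trans h2).trans (Nat.le_add_right _ _)

end Pool.Agent.Results.MP_4b1228_nt.RegularPoints
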