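import Pool.Agent.Q315.RD

/-!
# The Ankeny–Chowla–Hasse and Lang families for `n` with restricted digits, uniformly in the prime `q`

Let `g ≥ 2` be a base and `K` a large number of digits. For every `i < K` let `A i` be an arbitrary non-empty set of digits. Nothing
is assumed about these sets except that they are not too small on average: the number `|A 0| ⋯ |A (K - 1)|` of the integers
`t < g ^ K` whose `i`-th digit belongs to `A i` for all `i < K` is at least `exp (- c K) g ^ K`, where `c > 0` does not depend on the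
base (`Rich`). Let `2 ≤ N ≤ g ^ (E K)` be arbitrary, so that the interval `[N, N + g ^ K)` may be very short, and let `q` be ANY odd
prime `≤ g ^ (E K)` (much larger or much smaller than the interval).

The number of the integers `n = N + t` in this interval with these `t` for which BOTH `(2 q n) ^ 2 + 1` and
`((2 n + 1) q) ^ 2 + 4` have at most `r` prime factors, all larger than `g ^ (K / r)`, is at least `κ V |A 0| ⋯ |A (K - 1)|`, unless
there is an obvious obstruction (no digit `d` in `A 0` such that both numbers for `n = N + d` are prime to `g`); here `V` is the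
product of `1 - ν (p) / p` over the primes `p ≤ g ^ K`, where `ν (p)` is the number of the `t` modulo `p` for which `p` divides one of
the two numbers, the expected order. The number of the `n = N + t` for which `(2 q n) ^ 2 + 1` is a PRIME (of the family `𝒜`) is at
most `C V₁ |A 0| ⋯ |A (K - 1)|`, and the number of those for which `((2 n + 1) q) ^ 2 + 4` is a PRIME (of the family `ℬ`) is at most
`C V₂ |A 0| ⋯ |A (K - 1)|`, with the corresponding products for the single families. The constants are independent of the sets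
`A i`, of `N` and of `q`.

Proof. The theorem on almost prime values of polynomials at integers with restricted digits, uniform in the polynomial, of the
starting library (`Pool.Agent.Y816.PD.uni_fun`).
-/

set_option autoImplicit false

namespace Pool.Agent.Results.MP_4b1228_nt.RestrictedDigits

open Filter Finset Polynomial
open Pool.Agent.Q315.RD

/-- the number `(2 q n) ^ 2 + 1` of the family `𝒜`, `n = N + t` -/
def famA (q N t : ℕ) : ℕ := (2 * q * (N + t)) ^ 2 + 1

/-- the number `((2 n + 1) q) ^ 2 + 4` of the family `ℬ`, `n = N + t` -/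
def famB (q N t : ℕ) : ℕ := ((2 * (N + t) + 1) * q) ^ 2 + 4

lemma three_not_dvd (x : ℕ) : ¬ 3 ∣ x ^ 2 + 1 := by
  intro h
  have h1 : x % 3 = 0 ∨ x % 3 = 1 ∨ x % 3 = 2 := by omega
  have h2 : (x ^ 2 + 1) % 3 = 0 := Nat.mod_eq_zero_of_dvd h
  rw [Nat.add_mod, Nat.pow_mod] at h2
  rcases h1 with h1 | h1 | h1 <;> rw [h1] at h2 <;> norm_num at h2

/-- no local obstruction -/
lemma adm {q N : ℕ} (hq : q.Prime) (hq2 : q ≠ 2) (p : ℕ) (hp : p.Prime) :
    ∃ t : ℕ, ¬ p ∣ famA q N t ∧ ¬ p ∣ famB q N t := by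
  have hodd : q % 2 = 1 := by
    rcases hq.eq_two_or_odd with h | h
    · exact absurd h hq2
    · exact h
  rcases eq_or_ne p 2 with rfl | h2
  · refine ⟨0, ?_, ?_⟩
    · intro h
      have e : famA q N 0 = 2 * (2 * (q * (N + 0)) ^ 2) + 1 := by unfold famA; ring
      rw [e] at h
      omega
    · intro h
      have e : famB q N 0 % 2 = 1 := by
        unfold famB
        have e1 : ((2 * (N + 0) + 1) * q) % 2 = 1 := by
          rw [Nat.mul_mod, hodd]; omega
        have e2 : ((2 * (N + 0) + 1) * q) ^ 2 % 2 = 1 := by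
          rw [Nat.pow_mod, e1]
        omega
      omega
  rcases eq_or_ne p 3 with rfl | h3
  · refine ⟨0, three_not_dvd _, ?_⟩
    intro h
    refine three_not_dvd ((2 * (N + 0) + 1) * q) ?_
    unfold famB at h
    omega
  have hp5 : 5 ≤ p := by
    have := hp.two_le
    have h4 : p ≠ 4 := by rintro rfl; revert hp; decide
    omega
  have hA : ∀ t, p ∣ N + t → ¬ p ∣ famA q N t := by
    intro t ht h
    unfold famA at h
    have h1 : p ∣ (2 * q * (N + t)) ^ 2 := dvd_pow (ht.mul_left _) (by norm_num)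
    have h4 := (Nat.dvd_add_right h1).1 h
    have := Nat.le_of_dvd one_pos h4
    omega
  by_cases hq4 : p ∣ q ^ 2 + 4
  · -- `2 n + 1 = 0`
    have hpo : p % 2 = 1 := by
      rcases hp.eq_two_or_odd with h | h
      · exact absurd h h2
      · exact h
    refine ⟨(p - 1) * N + (p - 1) / 2, ?_, ?_⟩
    · intro h
      unfold famA at h
      have e0 : N + ((p - 1) * N + (p - 1) / 2) = p * N + (p - 1) / 2 := by
        obtain ⟨m, rfl⟩ : ∃ m, p = m + 1 := ⟨p - 1, by omega⟩
        simp only [Nat.add_sub_cancel]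
        ring
      rw [e0] at h
      have e1 : 2 * q * (p * N + (p - 1) / 2) = q * (p * (2 * N + 1)) - q := by
        have e2 : 2 * ((p - 1) / 2) = p - 1 := by omega
        calc 2 * q * (p * N + (p - 1) / 2) = q * (p * (2 * N) + 2 * ((p - 1) / 2)) := by ring
          _ = q * (p * (2 * N + 1) - 1) := by
              rw [e2]
              congr 1
              have : p * (2 * N + 1) = p * (2 * N) + p := by ring
              rw [this]
              omega
          _ = _ := by rw [Nat.mul_sub, mul_one]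
      have hz : (p : ℤ) ∣ ((q * (p * (2 * N + 1)) - q : ℕ) : ℤ) ^ 2 + 1 := by
        rw [e1] at h
        exact_mod_cast h
      have hle : q ≤ q * (p * (2 * N + 1)) := Nat.le_mul_of_pos_right _ (by positivity)
      rw [Nat.cast_sub hle] at hz
      push_cast at hz
      have hz2 : (p : ℤ) ∣ (q : ℤ) ^ 2 + 1 := by
        have : (p : ℤ) ∣ ((q * (p * (2 * N + 1)) - q : ℤ) ^ 2 + 1) - ((q : ℤ) ^ 2 + 1) :=
          ⟨q ^ 2 * (2 * N + 1) * (p * (2 * N + 1) - 2), by ring⟩
        have h5 := dvd_sub hz this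
        have e6 : ((q * (p * (2 * N + 1)) - q : ℤ) ^ 2 + 1) -
            (((q * (p * (2 * N + 1)) - q : ℤ) ^ 2 + 1) - ((q : ℤ) ^ 2 + 1)) = (q : ℤ) ^ 2 + 1 := by ring
        rwa [e6] at h5
      have hz3 : (p : ℤ) ∣ (q : ℤ) ^ 2 + 4 := by exact_mod_cast hq4
      have hz4 : (p : ℤ) ∣ 3 := by
        have := dvd_sub hz3 hz2
        have e3 : ((q : ℤ) ^ 2 + 4) - ((q : ℤ) ^ 2 + 1) = 3 := by ring
        rwa [e3] at this
      have hz5 : p ∣ 3 := by exact_mod_cast hz4
      have := Nat.le_of_dvd (by norm_num) hz5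
      omega
    · intro h
      unfold famB at h
      have e0 : 2 * (N + ((p - 1) * N + (p - 1) / 2)) + 1 = p * (2 * N + 1) := by
        have e2 : 2 * ((p - 1) / 2) = p - 1 := by omega
        calc _ = 2 * (N + (p - 1) * N) + 2 * ((p - 1) / 2) + 1 := by ring
          _ = 2 * (p * N) + p := by
              rw [e2]
              obtain ⟨m, rfl⟩ : ∃ m, p = m + 1 := ⟨p - 1, by omega⟩
              simp only [Nat.add_sub_cancel]
              ring
          _ = _ := by ring
      rw [e0] at h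
      have h1 : p ∣ (p * (2 * N + 1) * q) ^ 2 :=
        dvd_pow ((Dvd.intro _ rfl : p ∣ p * (2 * N + 1)).mul_right q) (by norm_num)
      have h4 := (Nat.dvd_add_right h1).1 h
      have := Nat.le_of_dvd (by norm_num) h4
      omega
  · refine ⟨(p - 1) * N, hA _ ?_, ?_⟩
    · refine ⟨N, ?_⟩
      obtain ⟨m, rfl⟩ : ∃ m, p = m + 1 := ⟨p - 1, by omega⟩
      simp only [Nat.add_sub_cancel]
      ring
    · intro h
      apply hq4
      unfold famB at h
      have e0 : N + (p - 1) * N = p * N := by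
        obtain ⟨m, rfl⟩ : ∃ m, p = m + 1 := ⟨p - 1, by omega⟩
        simp only [Nat.add_sub_cancel]
        ring
      rw [e0] at h
      have e1 : ((2 * (p * N) + 1) * q) ^ 2 + 4 = p * (q ^ 2 * (4 * p * N ^ 2 + 4 * N)) + (q ^ 2 + 4) := by ring
      rw [e1] at h
      exact (Nat.dvd_add_right (Dvd.intro _ rfl)).1 h

/-- the polynomials -/
lemma polyA (q N : ℕ) : ∃ P : Polynomial ℤ, P.natDegree ≤ 2 ∧ ∀ t : ℕ, P.eval (t : ℤ) = (famA q N t : ℤ) := by
  refine ⟨C ((2 * q : ℤ) ^ 2) * (X + C (N : ℤ)) ^ 2 + 1, ?_, fun t => ?_⟩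
  · compute_degree
  · simp only [eval_add, eval_mul, eval_pow, eval_C, eval_X, eval_one]
    unfold famA
    push_cast
    ring

lemma polyB (q N : ℕ) : ∃ P : Polynomial ℤ, P.natDegree ≤ 2 ∧ ∀ t : ℕ, P.eval (t : ℤ) = (famB q N t : ℤ) := by
  refine ⟨C ((q : ℤ) ^ 2) * (C 2 * X + C (2 * N + 1 : ℤ)) ^ 2 + C 4, ?_, fun t => ?_⟩
  · compute_degree
  · simp only [eval_add, eval_mul, eval_pow, eval_C, eval_X]
    unfold famB
    push_cast
    ring

lemma size {g K E q N t : ℕ} (hg : 2 ≤ g) (hK : 1 ≤ K) (hq : q ≤ g ^ (E * K)) (hN : N ≤ g ^ (E * K)) (ht : t < g ^ K) :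
    famA q N t ≤ g ^ ((4 * E + 9) * K) ∧ famB q N t ≤ g ^ ((4 * E + 9) * K) := by
  have hg1 : 1 ≤ g := by omega
  have h2 : 2 ≤ g ^ K := hg.trans (Nat.le_self_pow (by omega) g)
  have hn : N + t ≤ g ^ ((E + 2) * K) := by
    calc N + t ≤ g ^ (E * K) + g ^ K := by omega
      _ ≤ g ^ ((E + 1) * K) + g ^ ((E + 1) * K) := by
          apply Nat.add_le_add <;> exact Nat.pow_le_pow_right hg1 (by nlinarith)
      _ = 2 * g ^ ((E + 1) * K) := by ring
      _ ≤ g ^ K * g ^ ((E + 1) * K) := Nat.mul_le_mul_right _ h2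
      _ = g ^ ((E + 2) * K) := by rw [← pow_add]; congr 1; ring
  have h4 : 4 ≤ g ^ (2 * K) := by
    calc 4 = 2 * 2 := rfl
      _ ≤ g ^ K * g ^ K := Nat.mul_le_mul h2 h2
      _ = g ^ (2 * K) := by rw [← pow_add]; congr 1; ring
  have hpos : 1 ≤ g ^ ((E + 2) * K) := Nat.one_le_pow _ _ hg1
  have hx : 2 * q * (N + t) ≤ g ^ ((2 * E + 4) * K) := by
    calc 2 * q * (N + t) ≤ g ^ (2 * K) * g ^ (E * K) * g ^ ((E + 2) * K) :=
          Nat.mul_le_mul (Nat.mul_le_mul (by omega) hq) hn
      _ = g ^ ((2 * E + 4) * K) := by rw [← pow_add, ← pow_add]; congr 1; ring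
  have hy : (2 * (N + t) + 1) * q ≤ g ^ ((2 * E + 4) * K) := by
    calc (2 * (N + t) + 1) * q ≤ (4 * g ^ ((E + 2) * K)) * g ^ (E * K) :=
          Nat.mul_le_mul (by omega) hq
      _ ≤ (g ^ (2 * K) * g ^ ((E + 2) * K)) * g ^ (E * K) :=
          Nat.mul_le_mul_right _ (Nat.mul_le_mul_right _ h4)
      _ = g ^ ((2 * E + 4) * K) := by rw [← pow_add, ← pow_add]; congr 1; ring
  have hbig : 4 ≤ g ^ ((4 * E + 8) * K) := h4.trans (Nat.pow_le_pow_right hg1 (by nlinarith))
  have hfin : ∀ z c : ℕ, z ≤ g ^ ((2 * E + 4) * K) → c ≤ 4 → z ^ 2 + c ≤ g ^ ((4 * E + 9) * K) := by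
    intro z c hz hc
    calc z ^ 2 + c ≤ (g ^ ((2 * E + 4) * K)) ^ 2 + 4 := Nat.add_le_add (Nat.pow_le_pow_left hz 2) hc
      _ = g ^ ((4 * E + 8) * K) + 4 := by rw [← pow_mul]; congr 2; ring
      _ ≤ 2 * g ^ ((4 * E + 8) * K) := by omega
      _ ≤ g ^ K * g ^ ((4 * E + 8) * K) := Nat.mul_le_mul_right _ h2
      _ = g ^ ((4 * E + 9) * K) := by rw [← pow_add]; congr 1; ring
  exact ⟨hfin _ 1 hx (by norm_num), hfin _ 4 hy le_rfl⟩

lemma le_fam {q N t : ℕ} (hq : 1 ≤ q) : t ≤ famA q N t ∧ t ≤ famB q N t := by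
  unfold famA famB
  constructor
  · calc t ≤ N + t := by omega
      _ ≤ 2 * q * (N + t) := Nat.le_mul_of_pos_left _ (by positivity)
      _ ≤ (2 * q * (N + t)) ^ 2 := Nat.le_self_pow (by norm_num) _
      _ ≤ _ := Nat.le_succ _
  · calc t ≤ 2 * (N + t) + 1 := by omega
      _ ≤ (2 * (N + t) + 1) * q := Nat.le_mul_of_pos_right _ hq
      _ ≤ ((2 * (N + t) + 1) * q) ^ 2 := Nat.le_self_pow (by norm_num) _
      _ ≤ _ := Nat.le_add_right _ _

/-- **The families of Ankeny–Chowla–Hasse and of Lang for `n` with restricted digits in all short intervals, uniformly in `q`.** -/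
theorem result (E : ℕ) :
    ∃ c : ℝ, 0 < c ∧ ∃ r₀ : ℕ, 2 ≤ r₀ ∧ ∀ r : ℕ, r₀ ≤ r → ∀ g : ℕ, 2 ≤ g → ∃ κ C : ℝ, 0 < κ ∧ 0 < C ∧
      ∀ᶠ K : ℕ in atTop, ∀ N q : ℕ, 2 ≤ N → N ≤ g ^ (E * K) → q.Prime → q ≠ 2 → q ≤ g ^ (E * K) →
        ∀ A : ℕ → Finset ℕ, Rich c g K A →
        ((∃ d ∈ A 0, (famA q N d).Coprime g ∧ (famB q N d).Coprime g) →
          κ * density ![famA q N, famB q N] (g ^ K) * choices K A ≤
            count g K A fun t => AlmostPrime (g ^ K) r (famA q N t) ∧ AlmostPrime (g ^ K) r (famB q N t)) ∧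
        (count g K A (fun t => (famA q N t).Prime) : ℝ) ≤ C * density ![famA q N] (g ^ K) * choices K A ∧
        (count g K A (fun t => (famB q N t).Prime) : ℝ) ≤ C * density ![famB q N] (g ^ K) * choices K A := by
  obtain ⟨c, hc, r₀, hr₀, h⟩ := forms 4 (8 * E + 18) (by norm_num)
  refine ⟨c, hc, r₀, hr₀, fun r hr g hg => ?_⟩
  obtain ⟨κ, C, hκ, hC, h1⟩ := h r hr g hg
  refine ⟨κ, C, hκ, hC, ?_⟩
  filter_upwards [h1, eventually_ge_atTop 1] with K hK hK1
  intro N q hN2 hN hq hq2 hqE A hA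
  obtain ⟨PA, hPA1, hPA2⟩ := polyA q N
  obtain ⟨PB, hPB1, hPB2⟩ := polyB q N
  have hg1 : 1 ≤ g := by omega
  have hmono : g ^ ((4 * E + 9) * K) ≤ g ^ ((8 * E + 18) * K) := Nat.pow_le_pow_right hg1 (by nlinarith)
  refine ⟨?_, ?_, ?_⟩
  · have h2 := (hK 2 ![famA q N, famB q N]
      ⟨PA * PB, natDegree_mul_le.trans (by omega), fun t => by
        rw [eval_mul, hPA2, hPB2, Fin.prod_univ_two]; rfl⟩
      (fun p hp => by
        obtain ⟨t, h3, h4⟩ := adm (N := N) hq hq2 p hp
        exact ⟨t, fun i => by fin_cases i; exacts [h3, h4]⟩)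
      (fun t _ i => by fin_cases i; exacts [(le_fam hq.one_lt.le).1, (le_fam hq.one_lt.le).2])
      (fun t ht => by
        rw [Fin.prod_univ_two]
        obtain ⟨h3, h4⟩ := size hg hK1 hqE hN ht
        calc _ ≤ g ^ ((4 * E + 9) * K) * g ^ ((4 * E + 9) * K) := Nat.mul_le_mul h3 h4
          _ = _ := by rw [← pow_add]; congr 1; ring) A hA).1
    simpa only [Fin.forall_fin_two, Matrix.cons_val_zero, Matrix.cons_val_one, Matrix.cons_val_fin_one] using h2
  · have h2 := (hK 1 ![famA q N]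
      ⟨PA, by omega, fun t => by rw [hPA2, Fin.prod_univ_one]; rfl⟩
      (fun p hp => by
        obtain ⟨t, h3, h4⟩ := adm (N := N) hq hq2 p hp
        exact ⟨t, fun i => by fin_cases i; exact h3⟩)
      (fun t _ i => by fin_cases i; exact (le_fam hq.one_lt.le).1)
      (fun t ht => by
        rw [Fin.prod_univ_one]
        exact (size hg hK1 hqE hN ht).1.trans hmono) A hA).2
    simpa only [Fin.forall_fin_one, Matrix.cons_val_zero, Matrix.cons_val_fin_one] using h2
  · have h2 := (hK 1 ![famB q N]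
      ⟨PB, by omega, fun t => by rw [hPB2, Fin.prod_univ_one]; rfl⟩
      (fun p hp => by
        obtain ⟨t, h3, h4⟩ := adm (N := N) hq hq2 p hp
        exact ⟨t, fun i => by fin_cases i; exact h4⟩)
      (fun t _ i => by fin_cases i; exact (le_fam hq.one_lt.le).2)
      (fun t ht => by
        rw [Fin.prod_univ_one]
        exact (size hg hK1 hqE hN ht).2.trans hmono) A hA).2
    simpa only [Fin.forall_fin_one, Matrix.cons_val_zero, Matrix.cons_val_fin_one] using h2

end Pool.Agent.Results.MP_4b1228_nt.RestrictedDigits
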